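import Pool.Agent.Lib.MP_b77ea7_nt.Defs

/-! # Leaf: arithmetic of the rational numbers with odd denominator -/

set_option autoImplicit false

namespace TwoAdicQ

theorem mem_D_iff {x : ℚ} : x ∈ D ↔ ∃ (a : ℤ) (b : ℕ), Odd b ∧ x = a / b := by
  constructor
  · intro hx
    exact ⟨x.num, x.den, hx, (Rat.num_div_den x).symm⟩
  · rintro ⟨a, b, hb, rfl⟩
    have h1 : ((((a : ℚ) / (b : ℚ)).den : ℕ) : ℤ) ∣ (b : ℤ) := by
      have h2 := Rat.den_dvd a (b : ℤ)
      rw [Rat.divInt_eq_div] at h2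
      simpa using h2
    have h3 : ((a : ℚ) / (b : ℚ)).den ∣ b := by exact_mod_cast h1
    exact hb.of_dvd_nat h3

theorem even_iff {a : ℤ} {b : ℕ} (hb : Odd b) : Even ((a / b : ℚ)).num ↔ Even a := by
  have hb0 : (b : ℚ) ≠ 0 := by
    have := hb.pos
    positivity
  have hD : Odd ((a / b : ℚ)).den := mem_D_iff.2 ⟨a, b, hb, rfl⟩
  have h1 : ((a / b : ℚ)).num * (b : ℤ) = a * (((a / b : ℚ)).den : ℤ) := by
    have h2 : (((a / b : ℚ)).num : ℚ) / (((a / b : ℚ)).den : ℚ) = a / b := Rat.num_div_den _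
    have h3 : (((a / b : ℚ)).den : ℚ) ≠ 0 := by
      have := hD.pos
      positivity
    rw [div_eq_div_iff h3 hb0] at h2
    exact_mod_cast h2
  have hb' : ¬ Even (b : ℤ) := by
    rw [Int.not_even_iff_odd]
    exact_mod_cast hb
  have hd' : ¬ Even (((a / b : ℚ)).den : ℤ) := by
    rw [Int.not_even_iff_odd]
    exact_mod_cast hD
  have h4 := congrArg Even h1
  rw [Int.even_mul, Int.even_mul] at h4
  constructor
  · intro h
    have : Even a ∨ Even (((a / b : ℚ)).den : ℤ) := by
      rw [← h4]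
      exact Or.inl h
    exact this.resolve_right hd'
  · intro h
    have : Even ((a / b : ℚ)).num ∨ Even (b : ℤ) := by
      rw [h4]
      exact Or.inl h
    exact this.resolve_right hb'

theorem D_add {x y : ℚ} (hx : x ∈ D) (hy : y ∈ D) : x + y ∈ D := by
  obtain ⟨a, b, hb, rfl⟩ := mem_D_iff.1 hx
  obtain ⟨c, d, hd, rfl⟩ := mem_D_iff.1 hy
  have hb0 : (b : ℚ) ≠ 0 := by
    have := hb.pos
    positivity
  have hd0 : (d : ℚ) ≠ 0 := by
    have := hd.pos
    positivity
  refine mem_D_iff.2 ⟨a * d + b * c, b * d, hb.mul hd, ?_⟩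
  rw [div_add_div _ _ hb0 hd0]
  push_cast
  ring

theorem D_mul {x y : ℚ} (hx : x ∈ D) (hy : y ∈ D) : x * y ∈ D := by
  obtain ⟨a, b, hb, rfl⟩ := mem_D_iff.1 hx
  obtain ⟨c, d, hd, rfl⟩ := mem_D_iff.1 hy
  refine mem_D_iff.2 ⟨a * c, b * d, hb.mul hd, ?_⟩
  rw [div_mul_div_comm]
  push_cast
  ring

theorem D_int (n : ℤ) : (n : ℚ) ∈ D := mem_D_iff.2 ⟨n, 1, odd_one, by simp⟩

theorem D_nat (n : ℕ) : (n : ℚ) ∈ D := mem_D_iff.2 ⟨n, 1, odd_one, by simp⟩

theorem D_sub {x y : ℚ} (hx : x ∈ D) (hy : y ∈ D) : x - y ∈ D := by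
  have h1 : x - y = x + ((-1 : ℤ) : ℚ) * y := by push_cast; ring
  rw [h1]
  exact D_add hx (D_mul (D_int _) hy)

theorem D_div_odd {x : ℚ} {k : ℕ} (hk : Odd k) : x / k ∈ D ↔ x ∈ D := by
  have hk0 : (k : ℚ) ≠ 0 := by
    have := hk.pos
    positivity
  constructor
  · intro h
    have h1 : x = x / k * k := by field_simp
    rw [h1]
    exact D_mul h (D_nat k)
  · intro h
    have h1 : x / k = x * (((1 : ℤ) : ℚ) / k) := by push_cast; ring
    rw [h1]
    exact D_mul h (mem_D_iff.2 ⟨1, k, hk, rfl⟩)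

theorem D_mul_odd {x : ℚ} {k : ℕ} (hk : Odd k) : k * x ∈ D ↔ x ∈ D := by
  have hk0 : (k : ℚ) ≠ 0 := by
    have := hk.pos
    positivity
  have h1 : (k * x) / k = x := by field_simp
  rw [← D_div_odd (x := k * x) hk, h1]

/-- `x ∈ D` is even iff `x / 2 ∈ D`. -/
theorem even_iff_half {x : ℚ} (hx : x ∈ D) : Even x.num ↔ x / 2 ∈ D := by
  obtain ⟨a, b, hb, rfl⟩ := mem_D_iff.1 hx
  have hb0 : (b : ℚ) ≠ 0 := by
    have := hb.pos
    positivity
  rw [even_iff hb]
  constructor
  · rintro ⟨c, rfl⟩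
    refine mem_D_iff.2 ⟨c, b, hb, ?_⟩
    push_cast
    field_simp
    ring
  · intro h
    obtain ⟨c, d, hd, he⟩ := mem_D_iff.1 h
    have hd0 : (d : ℚ) ≠ 0 := by
      have := hd.pos
      positivity
    have h1 : a * (d : ℤ) = 2 * (c * (b : ℤ)) := by
      have h2 : (a : ℚ) * d = 2 * (c * b) := by
        have h3 : (a : ℚ) = 2 * (c / d) * b := by
          rw [← he]
          field_simp
        rw [h3]
        field_simp
      exact_mod_cast h2
    have h4 : Even (a * (d : ℤ)) := by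
      rw [h1]
      exact even_two_mul _
    rw [Int.even_mul] at h4
    refine h4.resolve_right ?_
    rw [Int.not_even_iff_odd]
    exact_mod_cast hd

theorem not_even_iff {x : ℚ} (hx : x ∈ D) : ¬ Even x.num ↔ (x + 1) / 2 ∈ D := by
  obtain ⟨a, b, hb, rfl⟩ := mem_D_iff.1 hx
  have hb0 : (b : ℚ) ≠ 0 := by
    have := hb.pos
    positivity
  have h1 : (a : ℚ) / b + 1 = ((a + b : ℤ) : ℚ) / b := by
    push_cast
    field_simp
  rw [← even_iff_half (D_add hx (by simpa using D_nat 1)), h1, even_iff hb, even_iff hb,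
    Int.even_add, Int.not_even_iff_odd]
  have hb' : ¬ Even (b : ℤ) := by
    rw [Int.not_even_iff_odd]
    exact_mod_cast hb
  constructor
  · intro h
    exact ⟨fun h2 => absurd h2 (Int.not_even_iff_odd.2 h), fun h2 => absurd h2 hb'⟩
  · intro h
    exact Int.not_even_iff_odd.1 fun h2 => hb' (h.1 h2)

theorem half_odd {k : ℕ} (hk : Odd k) {x : ℚ} (hx : x ∈ D) (h : ¬ Even x.num) :
    (k * x + 1) / 2 ∈ D := by
  obtain ⟨m, rfl⟩ := hk
  have h1 : (((2 * m + 1 : ℕ) : ℚ) * x + 1) / 2 = (m : ℚ) * x + (x + 1) / 2 := by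
    push_cast
    ring
  rw [h1]
  exact D_add (D_mul (D_nat m) hx) ((not_even_iff hx).1 h)

theorem T_mem {k : ℕ} (hk : Odd k) {x : ℚ} (hx : x ∈ D) : T k x ∈ D := by
  unfold T
  split_ifs with h
  · exact (even_iff_half hx).1 h
  · exact half_odd hk hx h

theorem iter_mem {k : ℕ} (hk : Odd k) {x : ℚ} (hx : x ∈ D) (i : ℕ) : (T k)^[i] x ∈ D := by
  induction i with
  | zero => exact hx
  | succ i ih =>
    rw [Function.iterate_succ_apply']
    exact T_mem hk ih

/-- Every point of `D` has an even and an odd preimage. -/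
theorem exists_pre {k : ℕ} (hk : Odd k) {z : ℚ} (hz : z ∈ D) (b : Prop) :
    ∃ x ∈ D, T k x = z ∧ (Even x.num ↔ b) := by
  have hk0 : (k : ℚ) ≠ 0 := by
    have := hk.pos
    positivity
  by_cases hb : b
  · have h2 : 2 * z ∈ D := by simpa using D_mul (D_nat 2) hz
    have h1 : Even (2 * z).num := by
      rw [even_iff_half h2]
      have : 2 * z / 2 = z := by ring
      rw [this]
      exact hz
    refine ⟨2 * z, h2, ?_, by simp only [h1, hb]⟩
    unfold T
    rw [if_pos h1]
    ring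
  · have h2 : 2 * z - 1 ∈ D := D_sub (by simpa using D_mul (D_nat 2) hz) (by simpa using D_nat 1)
    have h3 : (2 * z - 1) / k ∈ D := (D_div_odd hk).2 h2
    have h1 : ¬ Even ((2 * z - 1) / k : ℚ).num := by
      rw [not_even_iff h3]
      obtain ⟨m, hm⟩ := hk
      have hk' : (k : ℚ) = 2 * m + 1 := by
        rw [hm]
        push_cast
        ring
      have h4 : ((2 * z - 1) / k + 1) / 2 = (z + m) / k := by
        field_simp
        rw [hk']
        ring
      rw [h4]
      exact (D_div_odd ⟨m, hm⟩).2 (D_add hz (D_nat m))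
    refine ⟨(2 * z - 1) / k, h3, ?_, by simp only [h1, hb]⟩
    unfold T
    rw [if_neg h1]
    field_simp
    ring

theorem near_zero (x y : ℚ) (hx : x ∈ D) (hy : y ∈ D) : Near 0 x y := by
  unfold Near
  rw [pow_zero, div_one]
  exact D_sub hx hy

theorem near_succ {k : ℕ} (hk : Odd k) {x y : ℚ} (hx : x ∈ D) (hy : y ∈ D) (n : ℕ) :
    Near (n + 1) x y ↔ (Even x.num ↔ Even y.num) ∧ Near n (T k x) (T k y) := by
  unfold Near
  have key : (x - y) / 2 ^ (n + 1) ∈ D → (Even x.num ↔ Even y.num) := by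
    intro h
    have h1 : (x - y) / 2 ∈ D := by
      have h2 : (x - y) / 2 = ((2 ^ n : ℕ) : ℚ) * ((x - y) / 2 ^ (n + 1)) := by
        push_cast
        field_simp
        ring
      rw [h2]
      exact D_mul (D_nat _) h
    rw [even_iff_half hx, even_iff_half hy]
    constructor
    · intro h3
      have : y / 2 = x / 2 - (x - y) / 2 := by ring
      rw [this]
      exact D_sub h3 h1
    · intro h3
      have : x / 2 = y / 2 + (x - y) / 2 := by ring
      rw [this]
      exact D_add h3 h1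
  constructor
  · intro h
    have h1 := key h
    refine ⟨h1, ?_⟩
    unfold T
    by_cases he : Even x.num
    · rw [if_pos he, if_pos (h1.1 he)]
      have : (x / 2 - y / 2) / 2 ^ n = (x - y) / 2 ^ (n + 1) := by
        field_simp
        ring
      rw [this]
      exact h
    · rw [if_neg he, if_neg fun h2 => he (h1.2 h2)]
      have : ((k * x + 1) / 2 - (k * y + 1) / 2) / 2 ^ n = k * ((x - y) / 2 ^ (n + 1)) := by
        field_simp
        ring
      rw [this]
      exact (D_mul_odd hk).2 h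
  · rintro ⟨h1, h2⟩
    unfold T at h2
    by_cases he : Even x.num
    · rw [if_pos he, if_pos (h1.1 he)] at h2
      have : (x / 2 - y / 2) / 2 ^ n = (x - y) / 2 ^ (n + 1) := by
        field_simp
        ring
      rw [this] at h2
      exact h2
    · rw [if_neg he, if_neg fun h2 => he (h1.2 h2)] at h2
      have : ((k * x + 1) / 2 - (k * y + 1) / 2) / 2 ^ n = k * ((x - y) / 2 ^ (n + 1)) := by
        field_simp
        ring
      rw [this] at h2
      exact (D_mul_odd hk).1 h2

/-- Congruence modulo `2 ^ n` is the same as equality of the first `n` parities. -/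
theorem near_iff {k : ℕ} (hk : Odd k) {x y : ℚ} (hx : x ∈ D) (hy : y ∈ D) (n : ℕ) :
    Near n x y ↔ ∀ i < n, (Par k x i ↔ Par k y i) := by
  induction n generalizing x y with
  | zero => exact ⟨fun _ i hi => absurd hi (by omega), fun _ => near_zero x y hx hy⟩
  | succ n ih =>
    rw [near_succ hk hx hy, ih (T_mem hk hx) (T_mem hk hy)]
    constructor
    · rintro ⟨h1, h2⟩ i hi
      cases i with
      | zero => exact h1
      | succ i =>
        have := h2 i (by omega)
        unfold Par at this ⊢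
        rw [Function.iterate_succ_apply, Function.iterate_succ_apply]
        exact this
    · intro h
      refine ⟨h 0 (by omega), fun i hi => ?_⟩
      have := h (i + 1) (by omega)
      unfold Par at this ⊢
      rw [Function.iterate_succ_apply, Function.iterate_succ_apply] at this
      exact this

/-- A point of `D` is determined by its parities. -/
theorem eq_of_par {k : ℕ} (hk : Odd k) {x y : ℚ} (hx : x ∈ D) (hy : y ∈ D)
    (h : ∀ i, Par k x i ↔ Par k y i) : x = y := by
  by_contra hne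
  have hz : x - y ≠ 0 := sub_ne_zero.2 hne
  obtain ⟨a, b, hb, he⟩ := mem_D_iff.1 (D_sub hx hy)
  have hb0 : (b : ℚ) ≠ 0 := by
    have := hb.pos
    positivity
  have ha : a ≠ 0 := by
    rintro rfl
    apply hz
    rw [he]
    simp
  have h1 : ∀ n : ℕ, (2 : ℤ) ^ n ∣ a := by
    intro n
    have h2 : (x - y) / 2 ^ n ∈ D := (near_iff hk hx hy n).2 fun i _ => h i
    obtain ⟨c, d, hd, he2⟩ := mem_D_iff.1 h2
    have hd0 : (d : ℚ) ≠ 0 := by
      have := hd.pos
      positivity
    rw [he] at he2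
    have h3 : a * (d : ℤ) = 2 ^ n * (c * (b : ℤ)) := by
      have h4 : (a : ℚ) * d = 2 ^ n * (c * b) := by
        have h5 : (a : ℚ) = 2 ^ n * (c / d) * b := by
          rw [← he2]
          field_simp
        rw [h5]
        field_simp
      exact_mod_cast h4
    have h6 : IsCoprime ((2 : ℤ) ^ n) (d : ℤ) := by
      apply IsCoprime.pow_left
      rw [Int.isCoprime_iff_gcd_eq_one]
      have : Nat.Coprime 2 d := (Nat.coprime_two_left).2 hd
      exact_mod_cast this
    exact h6.dvd_of_dvd_mul_right ⟨_, h3⟩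
  have h2 := h1 (a.natAbs)
  have h3 := Int.natAbs_dvd_natAbs.2 h2
  rw [Int.natAbs_pow] at h3
  have h4 := Nat.le_of_dvd (Int.natAbs_pos.2 ha) h3
  have h5 : a.natAbs < 2 ^ a.natAbs := Nat.lt_two_pow_self
  simp at h4
  omega

end TwoAdicQ
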