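import Pool.Agent.Lib.MP_b77ea7_nt.Defs

/-! # MP_b77ea7_nt: uniform continuity on some ball -/

set_option autoImplicit false

namespace TwoAdicQ

/-- `h` is uniformly continuous on some ball `{x ∈ D | |x - a|_2 ≤ 2 ^ (-r)}`. -/
def UCBall (h : ℚ → ℚ) : Prop :=
  ∃ a ∈ D, ∃ r, ∀ n, ∃ m, ∀ x ∈ D, ∀ y ∈ D,
    Near r a x → Near r a y → Near m x y → Near n (h x) (h y)

end TwoAdicQ
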