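import Pool.Agent.Lib.MP_b77ea7_nt.Main2
import Pool.Agent.Lib.MP_b77ea7_nt.BallDefs62

/-! # MP_b77ea7_nt: uniform continuity on some ball suffices -/

set_option autoImplicit false

namespace TwoAdicQ

private theorem par_shift (k : ℕ) (x : ℚ) (i m : ℕ) :
    Par k ((T k)^[i] x) m ↔ Par k x (m + i) := by
  rw [par_add]

private theorem iter_conj {k l : ℕ} (hk : Odd k) {g : ℚ → ℚ}
    (hg : ∀ x ∈ D, g (T k x) = T l (g x)) {x : ℚ} (hx : x ∈ D) (i : ℕ) :
    g ((T k)^[i] x) = (T l)^[i] (g x) := by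
  induction i with
  | zero => rfl
  | succ i ih =>
    rw [Function.iterate_succ_apply', Function.iterate_succ_apply', ← ih,
      hg _ (iter_mem hk hx i)]

/-- From a ball to `D`. -/
private theorem uc_of_ball {k l : ℕ} (hk : Odd k) (hl : Odd l) {g : ℚ → ℚ}
    (hm : Set.MapsTo g D D) (hg : ∀ x ∈ D, g (T k x) = T l (g x)) (hu : UCBall g) (n : ℕ) :
    ∃ m, ∀ x ∈ D, ∀ y ∈ D, Near m x y → Near n (g x) (g y) := by
  obtain ⟨a, ha, r, hu⟩ := hu
  obtain ⟨m, hum⟩ := hu (n + r)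
  refine ⟨m, fun x hx y hy hxy => ?_⟩
  obtain ⟨b, hb, c, hc, -, hbr⟩ := branch hk r (Par k a)
  have hmem : ∀ z ∈ D, b * z + c ∈ D := fun z hz => D_add (D_mul hb hz) hc
  have hx' := hmem x hx
  have hy' := hmem y hy
  obtain ⟨tx, px⟩ := hbr x hx
  obtain ⟨ty, py⟩ := hbr y hy
  generalize b * x + c = x' at hx' tx px
  generalize b * y + c = y' at hy' ty py
  have h1 := hum x' hx' y' hy' ((near_iff hk ha hx' r).2 fun i hi => (px i hi).symm)
    ((near_iff hk ha hy' r).2 fun i hi => (py i hi).symm)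
    ((near_iff hk hx' hy' m).2 fun i hi => by
      rcases Nat.lt_or_ge i r with h | h
      · exact (px i h).trans (py i h).symm
      · obtain ⟨j, rfl⟩ : ∃ j, i = j + r := ⟨i - r, by omega⟩
        rw [← par_shift, ← par_shift, tx, ty]
        exact (near_iff hk hx hy m).1 hxy j (by omega))
  refine (near_iff hl (hm hx) (hm hy) n).2 fun i hi => ?_
  rw [← tx, ← ty, iter_conj hk hg hx', iter_conj hk hg hy', par_shift, par_shift]
  exact (near_iff hl (hm hx') (hm hy') (n + r)).1 h1 (i + r) (by omega)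

/-- The walk that goes up to `j - 1` and then turns around between `i` and `j - 1`. -/
private def rho (i j : ℕ) (t : ℕ) : ℕ := (fun a => if a + 1 = j then i else a + 1)^[t] 0

private theorem rho_succ (i j t : ℕ) :
    rho i j (t + 1) = if rho i j t + 1 = j then i else rho i j t + 1 := by
  unfold rho
  rw [Function.iterate_succ_apply']

private theorem rho_zero (i j : ℕ) : rho i j 0 = 0 := rfl

private theorem rho_lt {i j : ℕ} (hij : i < j) (t : ℕ) : rho i j t < j := by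
  induction t with
  | zero => rw [rho_zero]; omega
  | succ t ih => rw [rho_succ]; split_ifs <;> omega

private theorem rho_eq {i j : ℕ} {t : ℕ} (ht : t < j) : rho i j t = t := by
  induction t with
  | zero => rfl
  | succ t ih => rw [rho_succ, ih (by omega), if_neg (by omega)]

private theorem rho_per {i j : ℕ} (hij : i < j) (t : ℕ) :
    rho i j (i + t + (j - i)) = rho i j (i + t) := by
  induction t with
  | zero =>
    have e : i + 0 + (j - i) = (j - 1) + 1 := by omega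
    rw [e, rho_succ, rho_eq (by omega), if_pos (by omega), Nat.add_zero, rho_eq hij]
  | succ t ih =>
    have e : i + (t + 1) + (j - i) = (i + t + (j - i)) + 1 := by omega
    rw [e, rho_succ, ih, ← rho_succ]
    rfl

private theorem rho_win {i j m : ℕ} {s : ℕ → Prop}
    (hw : ∀ u < m, (s (i + u) ↔ s (j + u))) (u : ℕ) (hu : u < m) (t : ℕ) :
    s (rho i j (t + u)) ↔ s (rho i j t + u) := by
  induction u generalizing t with
  | zero => rfl
  | succ u ih =>
    have e : t + (u + 1) = (t + 1) + u := by omega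
    rw [e, ih (by omega) (t + 1), rho_succ]
    split_ifs with h
    · have e2 : rho i j t + (u + 1) = j + u := by omega
      rw [e2]
      exact hw u (by omega)
    · have e2 : rho i j t + 1 + u = rho i j t + (u + 1) := by omega
      rw [e2]

/-- The parity of `x` depends on finitely many parities of `g x`. -/
private theorem inv_aux {k l : ℕ} (hk : Odd k) (hl : Odd l) {g : ℚ → ℚ}
    (hm : Set.MapsTo g D D) (hi : Set.InjOn g D) (hg : ∀ x ∈ D, g (T k x) = T l (g x))
    {m : ℕ} (hu : ∀ x ∈ D, ∀ y ∈ D, Near m x y → Near 1 (g x) (g y)) :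
    ∃ M, ∀ x ∈ D, ∀ y ∈ D, Near M (g x) (g y) → (Even x.num ↔ Even y.num) := by
  classical
  refine ⟨Fintype.card ((Fin m → Prop) × (Fin m → Prop)) + 1, fun x hx y hy hxy => ?_⟩
  obtain ⟨i', j', hne, heq⟩ := Fintype.exists_ne_map_eq_of_card_lt
    (fun i : Fin (Fintype.card ((Fin m → Prop) × (Fin m → Prop)) + 1) =>
      ((fun u : Fin m => Par k x (i + u), fun u : Fin m => Par k y (i + u)) :
        (Fin m → Prop) × (Fin m → Prop))) (by rw [Fintype.card_fin]; omega)
  obtain ⟨i, j, hij, hj, hwx, hwy⟩ : ∃ i j : ℕ, i < j ∧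
      j < Fintype.card ((Fin m → Prop) × (Fin m → Prop)) + 1 ∧
      (∀ u < m, (Par k x (i + u) ↔ Par k x (j + u))) ∧
      ∀ u < m, (Par k y (i + u) ↔ Par k y (j + u)) := by
    have h1 := congrArg Prod.fst heq
    have h2 := congrArg Prod.snd heq
    have h3 : ∀ u < m, (Par k x (i' + u) ↔ Par k x (j' + u)) := fun u hu =>
      Iff.of_eq (congrFun h1 ⟨u, hu⟩)
    have h4 : ∀ u < m, (Par k y (i' + u) ↔ Par k y (j' + u)) := fun u hu =>
      Iff.of_eq (congrFun h2 ⟨u, hu⟩)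
    rcases lt_or_gt_of_ne hne with h | h
    · exact ⟨i', j', h, j'.2, h3, h4⟩
    · exact ⟨j', i', h, i'.2, fun u hu => (h3 u hu).symm, fun u hu => (h4 u hu).symm⟩
  have hreal : ∀ z ∈ D, (∀ u < m, (Par k z (i + u) ↔ Par k z (j + u))) →
      ∃ z' ∈ D, (∀ t, Par k z' t ↔ Par k z (rho i j t)) ∧
        ∀ t, Par l (g z') t ↔ Par l (g z) (rho i j t) := by
    intro z hz hw
    obtain ⟨z', hz', hp⟩ := realize (k := k) hk (p := j - i) (q := i) (by omega)
      (s := fun t => Par k z (rho i j t)) (fun t ht => by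
        obtain ⟨d, rfl⟩ : ∃ d, t = i + d := ⟨t - i, by omega⟩
        show Par k z _ ↔ Par k z _
        rw [rho_per hij])
    refine ⟨z', hz', hp, fun t => ?_⟩
    have h1 : Near m ((T k)^[t] z') ((T k)^[rho i j t] z) := by
      refine (near_iff hk (iter_mem hk hz' t) (iter_mem hk hz _) m).2 fun u hu => ?_
      rw [par_shift, par_shift, hp, Nat.add_comm u t, Nat.add_comm u]
      exact rho_win hw u hu t
    have h2 := hu _ (iter_mem hk hz' t) _ (iter_mem hk hz _) h1
    rw [iter_conj hk hg hz', iter_conj hk hg hz] at h2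
    exact (near_iff hl (iter_mem hl (hm hz') _) (iter_mem hl (hm hz) _) 1).1 h2 0 (by omega)
  obtain ⟨x', hx', px, qx⟩ := hreal x hx hwx
  obtain ⟨y', hy', py, qy⟩ := hreal y hy hwy
  have h1 : g x' = g y' := by
    refine eq_of_par hl (hm hx') (hm hy') fun t => ?_
    rw [qx, qy]
    exact (near_iff hl (hm hx) (hm hy) _).1 hxy _ (lt_trans (rho_lt hij t) hj)
  have h2 := hi hx' hy' h1
  have h3 := px 0
  have h4 := py 0
  rw [h2] at h3
  exact h3.symm.trans h4

private theorem inv_of_uc {k l : ℕ} (hk : Odd k) (hl : Odd l) {g : ℚ → ℚ}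
    (hm : Set.MapsTo g D D) (hi : Set.InjOn g D) (hg : ∀ x ∈ D, g (T k x) = T l (g x))
    (hu : ∀ n, ∃ m, ∀ x ∈ D, ∀ y ∈ D, Near m x y → Near n (g x) (g y)) (n : ℕ) :
    ∃ m, ∀ x ∈ D, ∀ y ∈ D, Near m (g x) (g y) → Near n x y := by
  obtain ⟨m, hum⟩ := hu 1
  obtain ⟨M, hM⟩ := inv_aux hk hl hm hi hg hum
  refine ⟨M + n, fun x hx y hy hxy => (near_iff hk hx hy n).2 fun i hin => ?_⟩
  refine hM _ (iter_mem hk hx i) _ (iter_mem hk hy i) ?_
  rw [iter_conj hk hg hx, iter_conj hk hg hy]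
  refine (near_iff hl (iter_mem hl (hm hx) i) (iter_mem hl (hm hy) i) M).2 fun u hu => ?_
  rw [par_shift, par_shift]
  exact (near_iff hl (hm hx) (hm hy) _).1 hxy _ (by omega)

theorem uniform_of_ball {h : ℚ → ℚ} (hc : Conj h)
    (hu : UCBall h ∨ ∃ g, UCBall g ∧ ∀ x ∈ D, g (h x) = x) : Uniform h := by
  have h3 : Odd 3 := by decide
  have h5 : Odd 5 := by decide
  rcases hu with hu | ⟨g, hu, hgh⟩
  · have h1 := uc_of_ball h3 h5 hc.1.mapsTo hc.2 hu
    exact ⟨h1, inv_of_uc h3 h5 hc.1.mapsTo hc.1.injOn hc.2 h1⟩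
  · have hm : Set.MapsTo g D D := by
      intro y hy
      obtain ⟨x, hx, rfl⟩ := hc.1.surjOn hy
      rw [hgh x hx]
      exact hx
    have hi : Set.InjOn g D := by
      intro y hy z hz hyz
      obtain ⟨x, hx, rfl⟩ := hc.1.surjOn hy
      obtain ⟨w, hw, rfl⟩ := hc.1.surjOn hz
      rw [hgh x hx, hgh w hw] at hyz
      rw [hyz]
    have hg : ∀ y ∈ D, g (T 5 y) = T 3 (g y) := by
      intro y hy
      obtain ⟨x, hx, rfl⟩ := hc.1.surjOn hy
      rw [hgh x hx, ← hc.2 x hx, hgh _ (T_mem h3 hx)]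
    have h1 := uc_of_ball h5 h3 hm hg hu
    have h2 := inv_of_uc h5 h3 hm hi hg h1
    refine ⟨fun n => ?_, fun n => ?_⟩
    · obtain ⟨m, hm2⟩ := h2 n
      refine ⟨m, fun x hx y hy hxy => hm2 _ (hc.1.mapsTo hx) _ (hc.1.mapsTo hy) ?_⟩
      rw [hgh x hx, hgh y hy]
      exact hxy
    · obtain ⟨m, hm1⟩ := h1 n
      refine ⟨m, fun x hx y hy hxy => ?_⟩
      have := hm1 _ (hc.1.mapsTo hx) _ (hc.1.mapsTo hy) hxy
      rwa [hgh x hx, hgh y hy] at this

theorem isometric_of_uniform {h : ℚ → ℚ} (hc : Conj h) (hu : Uniform h) : Isometric h := by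
  have h3 : Odd 3 := by decide
  have h5 : Odd 5 := by decide
  intro n x hx y hy
  rw [near_iff h3 hx hy, near_iff h5 (hc.1.mapsTo hx) (hc.1.mapsTo hy)]
  have hp : ∀ z ∈ D, ∀ i, (Par 5 (h z) i ↔ Even (h ((T 3)^[i] z)).num) := by
    intro z hz i
    unfold Par
    rw [par_conj hc hz i]
  rcases core hc hu with h1 | h1
  · refine forall_congr' fun i => forall_congr' fun _ => ?_
    rw [hp x hx, hp y hy, ← h1 _ (iter_mem h3 hx i), ← h1 _ (iter_mem h3 hy i)]
    rfl
  · refine forall_congr' fun i => forall_congr' fun _ => ?_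
    have e1 := h1 _ (iter_mem h3 hx i)
    have e2 := h1 _ (iter_mem h3 hy i)
    rw [hp x hx, hp y hy]
    unfold Par
    tauto

open Classical in
theorem main3 : (∀ h, Conj h → (UCBall h ∨ ∃ g, UCBall g ∧ ∀ x ∈ D, g (h x) = x) →
      Isometric h) ∧
    ((∃ h, Conj h ∧ Isometric h) ↔
      {s | ∃ x ∈ D, Par 3 x = s} = {s | ∃ x ∈ D, Par 5 x = s}) ∧
    ((∀ x ∈ D, FinOrb 3 x) → (∀ x ∈ D, FinOrb 5 x) → ∃ h, Conj h ∧ Isometric h) ∧
    ((∃ h, Conj h) → ((∀ x ∈ D, FinOrb 3 x) ↔ ∀ x ∈ D, FinOrb 5 x)) ∧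
    ((∃ h, Conj h ∧ Isometric h) → ∀ y ∈ D, ¬ FinOrb 5 y → ∀ θ : ℝ,
      θ < Real.log 2 / Real.log 3 → ∀ᶠ n : ℕ in Filter.atTop,
        θ * n ≤ (((Finset.range n).filter fun i => ¬ Par 5 y i).card : ℝ)) := by
  have h12 := main2.1.out 1 2
  have h01 := main2.1.out 0 1
  exact ⟨fun h hc hu => isometric_of_uniform hc (uniform_of_ball hc hu), h12, main2.2.1,
    main2.2.2.1, fun hh => main2.2.2.2 (h01.2 hh)⟩

end TwoAdicQ
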