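import Pool.Agent.Lib.MP_b77ea7_nt.Arith

/-! # Leaf: a uniform conjugacy preserves or reverses the parity -/

set_option autoImplicit false

namespace TwoAdicQ

private theorem core_succ {k : ℕ} (x : ℚ) (i : ℕ) : Par k x (i + 1) ↔ Par k (T k x) i := Iff.rfl

private theorem core_zero {k : ℕ} (x : ℚ) : Par k x 0 ↔ Even x.num := Iff.rfl

private theorem core_hsucc {h : ℚ → ℚ} (hc : Conj h) {x : ℚ} (hx : x ∈ D) (i : ℕ) :
    Par 5 (h x) (i + 1) ↔ Par 5 (h (T 3 x)) i := by
  rw [core_succ, hc.2 x hx]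

private theorem core_perm {h : ℚ → ℚ} (hc : Conj h) {z : ℚ} (hz : z ∈ D) (b : Prop) :
    ∃ x ∈ D, T 3 x = z ∧ (Even (h x).num ↔ b) := by
  have h3 : Odd 3 := by decide
  have h5 : Odd 5 := by decide
  obtain ⟨x, hx, tx, ex⟩ := exists_pre h3 hz True
  obtain ⟨y, hy, ty, ey⟩ := exists_pre h3 hz False
  have hne : ¬ (Even (h x).num ↔ Even (h y).num) := by
    intro he
    have h1 : h x = h y := by
      refine eq_of_par h5 (hc.1.mapsTo hx) (hc.1.mapsTo hy) fun i => ?_
      cases i with
      | zero => exact he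
      | succ i => rw [core_hsucc hc hx, core_hsucc hc hy, tx, ty]
    have h2 := hc.1.injOn hx hy h1
    rw [h2] at ex
    exact ey.1 (ex.2 trivial)
  by_cases hb : Even (h x).num ↔ b
  · exact ⟨x, hx, tx, hb⟩
  · exact ⟨y, hy, ty, by tauto⟩

private def coreP (h : ℚ → ℚ) (m : ℕ) : Prop :=
  ∀ x ∈ D, ∀ y ∈ D, (∀ i < m, (Par 3 x i ↔ Par 3 y i)) → (Even (h x).num ↔ Even (h y).num)

private def coreQ (h : ℚ → ℚ) (m : ℕ) : Prop :=
  ∀ x ∈ D, ∀ y ∈ D, (∀ i < m, (Par 5 (h x) i ↔ Par 5 (h y) i)) → (Even x.num ↔ Even y.num)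

private theorem core_exP {h : ℚ → ℚ} (hc : Conj h) (hu : Uniform h) : ∃ m, coreP h m := by
  have h3 : Odd 3 := by decide
  have h5 : Odd 5 := by decide
  obtain ⟨m, hm⟩ := hu.1 1
  refine ⟨m, fun x hx y hy hp => ?_⟩
  have h1 := hm x hx y hy ((near_iff h3 hx hy m).2 hp)
  exact (near_iff h5 (hc.1.mapsTo hx) (hc.1.mapsTo hy) 1).1 h1 0 (by omega)

private theorem core_exQ {h : ℚ → ℚ} (hc : Conj h) (hu : Uniform h) : ∃ m, coreQ h m := by
  have h3 : Odd 3 := by decide
  have h5 : Odd 5 := by decide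
  obtain ⟨m, hm⟩ := hu.2 1
  refine ⟨m, fun x hx y hy hp => ?_⟩
  have h1 := hm x hx y hy ((near_iff h5 (hc.1.mapsTo hx) (hc.1.mapsTo hy) m).2 hp)
  exact (near_iff h3 hx hy 1).1 h1 0 (by omega)

private theorem core_ind {h : ℚ → ℚ} (hc : Conj h) {m m' : ℕ} (hm : 1 ≤ m) (hP : coreP h m)
    {p q x0 y0 : ℚ} (hp : p ∈ D) (hq : q ∈ D)
    (hpq : ∀ i < m - 1, (Par 3 p i ↔ Par 3 q i))
    (hxy : ∀ i < m', (Par 5 (h x0) i ↔ Par 5 (h y0) i))
    (h1 : Even (h p).num ↔ Par 5 (h x0) m') (h2 : Even (h q).num ↔ Par 5 (h y0) m') :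
    ∀ j ≤ m', ∃ p' ∈ D, ∃ q' ∈ D, (∀ i < (m - 1) + j, (Par 3 p' i ↔ Par 3 q' i)) ∧
      (∀ i ≤ j, (Par 5 (h p') i ↔ Par 5 (h x0) (m' - j + i))) ∧
      ∀ i ≤ j, (Par 5 (h q') i ↔ Par 5 (h y0) (m' - j + i)) := by
  have h3 : Odd 3 := by decide
  intro j
  induction j with
  | zero =>
    intro _
    refine ⟨p, hp, q, hq, fun i hi => hpq i (by omega), fun i hi => ?_, fun i hi => ?_⟩
    · have e : i = 0 := by omega
      rw [e]
      exact h1
    · have e : i = 0 := by omega
      rw [e]
      exact h2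
  | succ j ih =>
    intro hj
    obtain ⟨a, ha, b, hb, A, P1, P2⟩ := ih (by omega)
    obtain ⟨a', ha', ta, ea⟩ := core_perm hc ha (Par 5 (h x0) (m' - (j + 1)))
    obtain ⟨b', hb', tb, eb⟩ := exists_pre h3 hb (Even a'.num)
    have A' : ∀ i < (m - 1) + (j + 1), (Par 3 a' i ↔ Par 3 b' i) := by
      intro i hi
      cases i with
      | zero => exact eb.symm
      | succ i =>
        rw [core_succ, core_succ, ta, tb]
        exact A i (by omega)
    refine ⟨a', ha', b', hb', A', fun i hi => ?_, fun i hi => ?_⟩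
    · cases i with
      | zero => exact ea
      | succ i =>
        rw [core_hsucc hc ha', ta]
        have e : m' - (j + 1) + (i + 1) = m' - j + i := by omega
        rw [e]
        exact P1 i (by omega)
    · cases i with
      | zero =>
        have e1 := hP a' ha' b' hb' fun i hi => A' i (by omega)
        have e2 := hxy (m' - (j + 1)) (by omega)
        show Even (h b').num ↔ Par 5 (h y0) (m' - (j + 1))
        exact e1.symm.trans (ea.trans e2)
      | succ i =>
        rw [core_hsucc hc hb', tb]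
        have e : m' - (j + 1) + (i + 1) = m' - j + i := by omega
        rw [e]
        exact P2 i (by omega)

theorem core {h : ℚ → ℚ} (hc : Conj h) (hu : Uniform h) :
    (∀ x ∈ D, (Even x.num ↔ Even (h x).num)) ∨ ∀ x ∈ D, (Even x.num ↔ ¬ Even (h x).num) := by
  classical
  have h3 : Odd 3 := by decide
  have exP := core_exP hc hu
  have exQ := core_exQ hc hu
  have h0 : (0 : ℚ) ∈ D := by exact_mod_cast D_nat 0
  have P1 : coreP h 1 := by
    have hPm := Nat.find_spec exP
    have hmin : ∀ k < Nat.find exP, ¬ coreP h k := fun k hk => Nat.find_min exP hk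
    rcases le_or_gt (Nat.find exP) 1 with hm | hm
    · intro x hx y hy hp
      exact hPm x hx y hy fun i hi => hp i (by omega)
    exfalso
    have hQm := Nat.find_spec exQ
    have hminQ : ∀ k < Nat.find exQ, ¬ coreQ h k := fun k hk => Nat.find_min exQ hk
    generalize Nat.find exP = m at hPm hmin hm
    generalize Nat.find exQ = n at hQm hminQ
    have hn : 1 ≤ n := by
      by_contra hcon
      have e : n = 0 := by omega
      rw [e] at hQm
      obtain ⟨x, hx, -, ex⟩ := exists_pre h3 h0 True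
      obtain ⟨y, hy, -, ey⟩ := exists_pre h3 h0 False
      have := hQm x hx y hy fun i hi => absurd hi (Nat.not_lt_zero i)
      exact ey.1 (this.1 (ex.2 trivial))
    obtain ⟨n, rfl⟩ : ∃ l, n = l + 1 := ⟨n - 1, by omega⟩
    have hp := hmin (m - 1) (by omega)
    have hq := hminQ n (by omega)
    unfold coreP at hp
    unfold coreQ at hq
    push Not at hp hq
    obtain ⟨p, hp, q, hq', hpq, hne⟩ := hp
    obtain ⟨x0, hx0, y0, hy0, hxy, hne'⟩ := hq
    have hne1 : ¬ (Even (h p).num ↔ Even (h q).num) := by tauto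
    have hne2 : ¬ (Even x0.num ↔ Even y0.num) := by tauto
    have hne3 : ¬ (Par 5 (h x0) n ↔ Par 5 (h y0) n) := by
      intro he
      refine hne2 (hQm x0 hx0 y0 hy0 fun i hi => ?_)
      rcases Nat.lt_or_ge i n with h1 | h1
      · exact hxy i h1
      · have e : i = n := by omega
        rw [e]
        exact he
    have key : ∀ p q : ℚ, p ∈ D → q ∈ D → (∀ i < m - 1, (Par 3 p i ↔ Par 3 q i)) →
        (Even (h p).num ↔ Par 5 (h x0) n) → (Even (h q).num ↔ Par 5 (h y0) n) → False := by
      intro p q hp hq hpq h1 h2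
      obtain ⟨a, ha, b, hb, A, B1, B2⟩ := core_ind hc (by omega) hPm hp hq hpq hxy h1 h2 n le_rfl
      have e1 := hQm a ha x0 hx0 fun i hi => by
        have := B1 i (by omega)
        have e : n - n + i = i := by omega
        rwa [e] at this
      have e2 := hQm b hb y0 hy0 fun i hi => by
        have := B2 i (by omega)
        have e : n - n + i = i := by omega
        rwa [e] at this
      have e3 : Even a.num ↔ Even b.num := A 0 (by omega)
      exact hne2 (e1.symm.trans (e3.trans e2))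
    by_cases hs : Even (h p).num ↔ Par 5 (h x0) n
    · exact key p q hp hq' hpq hs (by tauto)
    · exact key q p hq' hp (fun i hi => (hpq i hi).symm) (by tauto) (by tauto)
  have P1' : ∀ x ∈ D, ∀ y ∈ D, (Even x.num ↔ Even y.num) → (Even (h x).num ↔ Even (h y).num) := by
    intro x hx y hy he
    refine P1 x hx y hy fun i hi => ?_
    have e : i = 0 := by omega
    rw [e]
    exact he
  obtain ⟨x, hx, -, ex⟩ := core_perm hc h0 True
  obtain ⟨y, hy, -, ey⟩ := core_perm hc h0 False
  have hxy := P1' x hx y hy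
  by_cases hex : Even x.num
  · refine Or.inl fun z hz => ?_
    have h1 := P1' z hz x hx
    have h2 := P1' z hz y hy
    tauto
  · refine Or.inr fun z hz => ?_
    have h1 := P1' z hz x hx
    have h2 := P1' z hz y hy
    tauto

end TwoAdicQ
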