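import Pool.Agent.Lib.MP_b77ea7_nt.Arith

/-! # Leaf: the number of the odd terms of a large orbit -/

set_option autoImplicit false

namespace TwoAdicQ

open Classical in
private theorem growth_aux {k : ℕ} (hk : 1 ≤ k) {x : ℚ} (hR : ∀ i, 100 < |(T k)^[i] x|) (n : ℕ) :
    |(T k)^[n] x| * 2 ^ n ≤ |x| * k ^ ((Finset.range n).filter fun i => ¬ Par k x i).card *
      (101 / 100) ^ n := by
  induction n with
  | zero => simp
  | succ n ih =>
    have hz := hR n
    rw [Function.iterate_succ_apply']
    have hk' : (1 : ℚ) ≤ k := by exact_mod_cast hk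
    by_cases hp : Par k x n
    · have hT : T k ((T k)^[n] x) = (T k)^[n] x / 2 := if_pos hp
      rw [hT, Finset.range_add_one, Finset.filter_insert, if_neg (by simpa using hp), abs_div,
        abs_of_pos (by norm_num : (0 : ℚ) < 2), pow_succ, pow_succ]
      have h0 : 0 ≤ |x| * (k : ℚ) ^ ((Finset.range n).filter fun i => ¬ Par k x i).card *
        (101 / 100) ^ n := by positivity
      calc |(T k)^[n] x| / 2 * (2 ^ n * 2) = |(T k)^[n] x| * 2 ^ n := by ring
        _ ≤ _ := ih
        _ ≤ |x| * (k : ℚ) ^ ((Finset.range n).filter fun i => ¬ Par k x i).card *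
          (101 / 100) ^ n * (101 / 100) := by linarith
        _ = _ := by ring
    · have hT : T k ((T k)^[n] x) = (k * (T k)^[n] x + 1) / 2 := if_neg hp
      rw [hT, Finset.range_add_one, Finset.filter_insert, if_pos hp,
        Finset.card_insert_of_notMem (by simp), abs_div,
        abs_of_pos (by norm_num : (0 : ℚ) < 2), pow_succ, pow_succ, pow_succ]
      have h1 : |(k : ℚ) * (T k)^[n] x + 1| ≤ k * |(T k)^[n] x| * (101 / 100) := by
        have h2 := abs_add_le ((k : ℚ) * (T k)^[n] x) 1
        rw [abs_mul, abs_one, abs_of_nonneg (by linarith : (0 : ℚ) ≤ k)] at h2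
        have h3 : 1 * |(T k)^[n] x| ≤ k * |(T k)^[n] x| :=
          mul_le_mul_of_nonneg_right hk' (abs_nonneg _)
        linarith
      calc |(k : ℚ) * (T k)^[n] x + 1| / 2 * (2 ^ n * 2)
          = |(k : ℚ) * (T k)^[n] x + 1| * 2 ^ n := by ring
        _ ≤ k * |(T k)^[n] x| * (101 / 100) * 2 ^ n :=
          mul_le_mul_of_nonneg_right h1 (by positivity)
        _ = (|(T k)^[n] x| * 2 ^ n) * (k * (101 / 100)) := by ring
        _ ≤ (|x| * (k : ℚ) ^ ((Finset.range n).filter fun i => ¬ Par k x i).card *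
          (101 / 100) ^ n) * (k * (101 / 100)) :=
          mul_le_mul_of_nonneg_right ih (by positivity)
        _ = _ := by ring

open Classical in
/-- The number of the odd terms in an orbit with large absolute values. -/
theorem growth {k : ℕ} (hk : 1 ≤ k) {x : ℚ} (hR : ∀ i, 100 < |(T k)^[i] x|) (n : ℕ) :
    (2 : ℚ) ^ n ≤ |x| * k ^ ((Finset.range n).filter fun i => ¬ Par k x i).card *
      (101 / 100) ^ n := by
  refine le_trans ?_ (growth_aux hk hR n)
  have h1 : (1 : ℚ) ≤ |(T k)^[n] x| := by linarith [hR n]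
  have h2 := mul_le_mul_of_nonneg_right h1 (by positivity : (0 : ℚ) ≤ 2 ^ n)
  linarith

end TwoAdicQ
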