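import Mathlib

/-!
# MP_b77ea7_nt: the maps `T_k` on the rational numbers with odd denominator: definitions
-/

set_option autoImplicit false

namespace TwoAdicQ

/-- The rational numbers whose reduced denominator is odd. -/
def D : Set ℚ := {x | Odd x.den}

/-- The map `T_k`: `x / 2` for even `x`, `(k x + 1) / 2` for odd `x`. -/
def T (k : ℕ) (x : ℚ) : ℚ := if Even x.num then x / 2 else (k * x + 1) / 2

/-- The parity sequence: `Par k x i` says that `T_k ^ i (x)` is even. -/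
def Par (k : ℕ) (x : ℚ) (i : ℕ) : Prop := Even ((T k)^[i] x).num

/-- `|x - y|_2 ≤ 2 ^ (-n)`: the number `(x - y) / 2 ^ n` has an odd denominator. -/
def Near (n : ℕ) (x y : ℚ) : Prop := (x - y) / 2 ^ n ∈ D

/-- `h` is a bijection of `D` with `h (T_3 x) = T_5 (h x)`. -/
def Conj (h : ℚ → ℚ) : Prop := Set.BijOn h D D ∧ ∀ x ∈ D, h (T 3 x) = T 5 (h x)

/-- `h` and its inverse are uniformly continuous on `D` for the 2-adic metric. -/
def Uniform (h : ℚ → ℚ) : Prop :=
  (∀ n, ∃ m, ∀ x ∈ D, ∀ y ∈ D, Near m x y → Near n (h x) (h y)) ∧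
  ∀ n, ∃ m, ∀ x ∈ D, ∀ y ∈ D, Near m (h x) (h y) → Near n x y

/-- `h` preserves the 2-adic distance on `D`. -/
def Isometric (h : ℚ → ℚ) : Prop := ∀ n, ∀ x ∈ D, ∀ y ∈ D, Near n x y ↔ Near n (h x) (h y)

/-- The orbit of `x` under `T_k` is finite. -/
def FinOrb (k : ℕ) (x : ℚ) : Prop := ∃ i j, i < j ∧ (T k)^[i] x = (T k)^[j] x

end TwoAdicQ
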