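import Pool.Agent.Lib.MP_b77ea7_nt.Large

/-! # MP_b77ea7_nt: the frequency of odd terms in an infinite orbit -/

set_option autoImplicit false

namespace TwoAdicQ

open Filter

open Classical in
private theorem growth_real {k : ℕ} (hk : 1 ≤ k) {x : ℚ} {e : ℝ} (he : 0 < e)
    (hR : ∀ i, 1 ≤ e * |(((T k)^[i] x : ℚ) : ℝ)|) (n : ℕ) :
    |(((T k)^[n] x : ℚ) : ℝ)| * 2 ^ n ≤
      |(x : ℝ)| * k ^ ((Finset.range n).filter fun i => ¬ Par k x i).card * (1 + e) ^ n := by
  induction n with
  | zero => simp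
  | succ n ih =>
    have hz := hR n
    rw [Function.iterate_succ_apply']
    have hk' : (1 : ℝ) ≤ k := by exact_mod_cast hk
    by_cases hp : Par k x n
    · have hT : T k ((T k)^[n] x) = (T k)^[n] x / 2 := if_pos hp
      rw [hT, Finset.range_add_one, Finset.filter_insert, if_neg (by simpa using hp)]
      push_cast
      rw [abs_div, abs_of_pos (by norm_num : (0 : ℝ) < 2), pow_succ, pow_succ]
      have h0 : 0 ≤ |(x : ℝ)| * (k : ℝ) ^ ((Finset.range n).filter fun i => ¬ Par k x i).card *
        (1 + e) ^ n := by positivity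
      calc |(((T k)^[n] x : ℚ) : ℝ)| / 2 * (2 ^ n * 2) = |(((T k)^[n] x : ℚ) : ℝ)| * 2 ^ n := by
            ring
        _ ≤ _ := ih
        _ ≤ |(x : ℝ)| * (k : ℝ) ^ ((Finset.range n).filter fun i => ¬ Par k x i).card *
          (1 + e) ^ n * (1 + e) := le_mul_of_one_le_right h0 (by linarith)
        _ = _ := by ring
    · have hT : T k ((T k)^[n] x) = (k * (T k)^[n] x + 1) / 2 := if_neg hp
      rw [hT, Finset.range_add_one, Finset.filter_insert, if_pos hp,
        Finset.card_insert_of_notMem (by simp)]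
      push_cast
      rw [abs_div, abs_of_pos (by norm_num : (0 : ℝ) < 2), pow_succ, pow_succ, pow_succ]
      generalize (((T k)^[n] x : ℚ) : ℝ) = z at *
      have h1 : |(k : ℝ) * z + 1| ≤ k * |z| * (1 + e) := by
        have h2 := abs_add_le ((k : ℝ) * z) 1
        rw [abs_mul, abs_one, abs_of_nonneg (by linarith : (0 : ℝ) ≤ k)] at h2
        have h3 : 1 * (e * |z|) ≤ k * (e * |z|) :=
          mul_le_mul_of_nonneg_right hk' (by positivity)
        nlinarith
      calc |(k : ℝ) * z + 1| / 2 * (2 ^ n * 2)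
          = |(k : ℝ) * z + 1| * 2 ^ n := by ring
        _ ≤ k * |z| * (1 + e) * 2 ^ n :=
          mul_le_mul_of_nonneg_right h1 (by positivity)
        _ = (|z| * 2 ^ n) * (k * (1 + e)) := by ring
        _ ≤ (|(x : ℝ)| * (k : ℝ) ^ ((Finset.range n).filter fun i => ¬ Par k x i).card *
          (1 + e) ^ n) * (k * (1 + e)) :=
          mul_le_mul_of_nonneg_right ih (by positivity)
        _ = _ := by ring

open Classical in
theorem freq62 {k : ℕ} (hk : Odd k) (hk3 : 3 ≤ k) {x : ℚ} (hx : x ∈ D) (hf : ¬ FinOrb k x) {θ : ℝ}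
    (h : θ < Real.log 2 / Real.log k) : ∀ᶠ n : ℕ in atTop,
      θ * n ≤ (((Finset.range n).filter fun i => ¬ Par k x i).card : ℝ) := by
  have hk3' : (3 : ℝ) ≤ k := by exact_mod_cast hk3
  have hL : 0 < Real.log k := Real.log_pos (by linarith)
  rw [lt_div_iff₀ hL] at h
  set L := Real.log k with hLd
  obtain ⟨e, he, he2⟩ : ∃ e : ℝ, 0 < e ∧ θ * L + e < Real.log 2 := by
    refine ⟨(Real.log 2 - θ * L) / 2, by linarith, by linarith⟩
  obtain ⟨N, hN⟩ := exists_large hk hx hf (⌈1 / e⌉₊ + 1 : ℚ)
  set y := (T k)^[N] x with hy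
  have hbig : ∀ i, (1 / e : ℝ) + 1 ≤ |(((T k)^[i] y : ℚ) : ℝ)| := by
    intro i
    have h1 := hN (i + N) (Nat.le_add_left _ _)
    rw [Function.iterate_add_apply, ← hy] at h1
    have h2 : (((⌈1 / e⌉₊ + 1 : ℚ) : ℚ) : ℝ) < ((|(T k)^[i] y| : ℚ) : ℝ) := by exact_mod_cast h1
    push_cast at h2
    have h3 := Nat.le_ceil (1 / e)
    linarith
  have hR : ∀ i, 1 ≤ e * |(((T k)^[i] y : ℚ) : ℝ)| := by
    intro i
    have h1 := hbig i
    have h2 : (1 / e : ℝ) ≤ |(((T k)^[i] y : ℚ) : ℝ)| := by linarith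
    rwa [div_le_iff₀ he, mul_comm] at h2
  have hone : ∀ i, 1 ≤ |(((T k)^[i] y : ℚ) : ℝ)| := by
    intro i
    have h1 := hbig i
    have h2 : 0 ≤ 1 / e := by positivity
    linarith
  -- the linear inequality
  have key : ∀ n : ℕ, n * Real.log 2 ≤ Real.log |(y : ℝ)| +
      (((Finset.range n).filter fun i => ¬ Par k y i).card : ℝ) * L + n * e := by
    intro n
    have g := growth_real (by omega) he hR n
    have g2 : (2 : ℝ) ^ n ≤
        |(y : ℝ)| * k ^ ((Finset.range n).filter fun i => ¬ Par k y i).card * (1 + e) ^ n := by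
      refine le_trans ?_ g
      exact le_mul_of_one_le_left (by positivity) (hone n)
    have hy0 : 0 < |(y : ℝ)| := lt_of_lt_of_le one_pos (hone 0)
    have hk0 : (0 : ℝ) < k := by linarith
    have g3 := Real.log_le_log (by positivity) g2
    rw [Real.log_mul (by positivity) (by positivity), Real.log_mul (by positivity) (by positivity),
      Real.log_pow, Real.log_pow, Real.log_pow] at g3
    have g4 : Real.log (1 + e) ≤ e := by
      have := Real.log_le_sub_one_of_pos (by linarith : 0 < 1 + e)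
      linarith
    have g5 : (n : ℝ) * Real.log (1 + e) ≤ n * e := mul_le_mul_of_nonneg_left g4 (by positivity)
    linarith
  -- counting for the shifted orbit
  have hcount : ∀ n : ℕ, ((Finset.range n).filter fun i => ¬ Par k y i).card ≤
      ((Finset.range (n + N)).filter fun i => ¬ Par k x i).card := by
    intro n
    refine Finset.card_le_card_of_injOn (fun i => i + N) ?_ (fun a _ b _ hab => by simpa using hab)
    intro i hi
    have hi' := Finset.mem_filter.1 (Finset.mem_coe.1 hi)
    refine Finset.mem_coe.2 (Finset.mem_filter.2 ⟨?_, ?_⟩)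
    · have := Finset.mem_range.1 hi'.1
      exact Finset.mem_range.2 (by show i + N < n + N; omega)
    · intro hp
      refine hi'.2 ?_
      unfold Par at hp ⊢
      rwa [hy, ← Function.iterate_add_apply]
  -- choose n large
  have hd : 0 < Real.log 2 - e - θ * L := by linarith
  obtain ⟨M, hM⟩ := exists_nat_ge ((θ * L * N + Real.log |(y : ℝ)|) / (Real.log 2 - e - θ * L))
  refine eventually_atTop.2 ⟨M + N, fun n hn => ?_⟩
  obtain ⟨m, rfl⟩ : ∃ m, n = m + N := ⟨n - N, by omega⟩
  have hm : (M : ℝ) ≤ m := by exact_mod_cast (by omega : M ≤ m)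
  have h1 := key m
  have h2 : ((((Finset.range m).filter fun i => ¬ Par k y i).card : ℕ) : ℝ) ≤
      (((Finset.range (m + N)).filter fun i => ¬ Par k x i).card : ℕ) := by
    exact_mod_cast hcount m
  have h3 : θ * L * N + Real.log |(y : ℝ)| ≤ m * (Real.log 2 - e - θ * L) := by
    have := le_trans hM hm
    rwa [div_le_iff₀ hd] at this
  have h4 := mul_le_mul_of_nonneg_right h2 hL.le
  refine le_of_mul_le_mul_right ?_ hL
  push_cast
  nlinarith

end TwoAdicQ
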