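import Pool.Agent.Lib.MP_b77ea7_nt.Large
import Pool.Agent.Lib.MP_b77ea7_nt.Count

/-! # Leaf: opposite parity sequences force finite orbits -/

set_option autoImplicit false

namespace TwoAdicQ

theorem finOrb_of_opp {x y : ℚ} (hx : x ∈ D) (hy : y ∈ D) (h : ∀ i, (Par 3 x i ↔ ¬ Par 5 y i)) :
    FinOrb 3 x ∨ FinOrb 5 y := by
  classical
  by_contra hcon
  rw [not_or] at hcon
  obtain ⟨h3, h5⟩ := hcon
  have o3 : Odd 3 := by decide
  have o5 : Odd 5 := by decide
  obtain ⟨N1, hN1⟩ := exists_large o3 hx h3 100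
  obtain ⟨N2, hN2⟩ := exists_large o5 hy h5 100
  set N := max N1 N2 with hN
  set x' := (T 3)^[N] x with hx'
  set y' := (T 5)^[N] y with hy'
  have hRx : ∀ i, 100 < |(T 3)^[i] x'| := fun i => by
    rw [hx', ← Function.iterate_add_apply]
    exact hN1 _ (le_trans (le_max_left N1 N2) (Nat.le_add_left _ _))
  have hRy : ∀ i, 100 < |(T 5)^[i] y'| := fun i => by
    rw [hy', ← Function.iterate_add_apply]
    exact hN2 _ (le_trans (le_max_right N1 N2) (Nat.le_add_left _ _))
  have hpx : ∀ i, Par 3 x' i ↔ Par 3 x (i + N) := fun i => by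
    unfold Par
    rw [hx', ← Function.iterate_add_apply]
  have hpy : ∀ i, Par 5 y' i ↔ Par 5 y (i + N) := fun i => by
    unfold Par
    rw [hy', ← Function.iterate_add_apply]
  have hopp : ∀ i, (¬ Par 3 x' i ↔ Par 5 y' i) := fun i => by
    rw [hpx, hpy, h (i + N), not_not]
  clear_value x' y'
  -- the main inequality
  have key : ∀ n : ℕ, (32 : ℚ) ^ n ≤ |x'| ^ 3 * |y'| ^ 2 * 29 ^ n := by
    intro n
    have g1 := growth (by norm_num) hRx n
    have g2 := growth (by norm_num) hRy n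
    have hcard : ((Finset.range n).filter fun i => ¬ Par 3 x' i).card +
        ((Finset.range n).filter fun i => ¬ Par 5 y' i).card = n := by
      have e : ((Finset.range n).filter fun i => ¬ Par 3 x' i) =
          (Finset.range n).filter fun i => Par 5 y' i :=
        Finset.filter_congr fun i _ => hopp i
      rw [e, Finset.card_filter_add_card_filter_not, Finset.card_range]
    generalize ((Finset.range n).filter fun i => ¬ Par 3 x' i).card = m at g1 hcard
    generalize ((Finset.range n).filter fun i => ¬ Par 5 y' i).card = m' at g2 hcard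
    subst hcard
    have c1 : ((2 : ℚ) ^ (m + m')) ^ 3 ≤
        (|x'| * ((3 : ℕ) : ℚ) ^ m * (101 / 100) ^ (m + m')) ^ 3 :=
      pow_le_pow_left₀ (by positivity) g1 3
    have c2 : ((2 : ℚ) ^ (m + m')) ^ 2 ≤
        (|y'| * ((5 : ℕ) : ℚ) ^ m' * (101 / 100) ^ (m + m')) ^ 2 :=
      pow_le_pow_left₀ (by positivity) g2 2
    have c3 := mul_le_mul c1 c2 (by positivity) (by positivity)
    have e1 : ((2 : ℚ) ^ (m + m')) ^ 3 * ((2 : ℚ) ^ (m + m')) ^ 2 = 32 ^ (m + m') := by
      rw [← pow_add, ← pow_mul, mul_comm, pow_mul]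
      norm_num
    have e2 : (|x'| * ((3 : ℕ) : ℚ) ^ m * (101 / 100) ^ (m + m')) ^ 3 *
        (|y'| * ((5 : ℕ) : ℚ) ^ m' * (101 / 100) ^ (m + m')) ^ 2 =
        |x'| ^ 3 * |y'| ^ 2 * (27 ^ m * 25 ^ m' * (((101 : ℚ) / 100) ^ 5) ^ (m + m')) := by
      have a1 : (27 : ℚ) ^ m = (3 ^ m) ^ 3 := by
        rw [← pow_mul, mul_comm, pow_mul]
        norm_num
      have a2 : (25 : ℚ) ^ m' = (5 ^ m') ^ 2 := by
        rw [← pow_mul, mul_comm, pow_mul]
        norm_num
      have a3 : (((101 : ℚ) / 100) ^ 5) ^ (m + m') = (((101 : ℚ) / 100) ^ (m + m')) ^ 5 := by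
        rw [← pow_mul, mul_comm, pow_mul]
      rw [a1, a2, a3]
      push_cast
      ring
    rw [e1, e2] at c3
    refine le_trans c3 (mul_le_mul_of_nonneg_left ?_ (by positivity))
    calc (27 : ℚ) ^ m * 25 ^ m' * (((101 : ℚ) / 100) ^ 5) ^ (m + m')
        ≤ 27 ^ m * 27 ^ m' * (((101 : ℚ) / 100) ^ 5) ^ (m + m') := by
          refine mul_le_mul_of_nonneg_right ?_ (by positivity)
          refine mul_le_mul_of_nonneg_left ?_ (by positivity)
          exact pow_le_pow_left₀ (by norm_num) (by norm_num) m'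
      _ = (27 * ((101 : ℚ) / 100) ^ 5) ^ (m + m') := by
          rw [mul_pow, pow_add 27]
      _ ≤ 29 ^ (m + m') := pow_le_pow_left₀ (by positivity) (by norm_num) _
  obtain ⟨n, hn⟩ := pow_unbounded_of_one_lt (|x'| ^ 3 * |y'| ^ 2)
    (show (1 : ℚ) < 32 / 29 by norm_num)
  have k1 := key n
  rw [div_pow, lt_div_iff₀ (by positivity)] at hn
  exact absurd k1 (not_le.2 hn)

end TwoAdicQ
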