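import Pool.Agent.Lib.MP_b77ea7_nt.Arith

/-! # Leaf: infinite orbits tend to infinity -/

set_option autoImplicit false

namespace TwoAdicQ

private theorem iter_form {k : ℕ} (hk : Odd k) {x : ℚ} {b : ℕ} (hb : Odd b) {a : ℤ}
    (hx : x = a / b) (i : ℕ) : ∃ c : ℤ, (T k)^[i] x = c / b := by
  have hb0 : (b : ℚ) ≠ 0 := by
    have : b ≠ 0 := hb.pos.ne'
    exact_mod_cast this
  induction i with
  | zero => exact ⟨a, hx⟩
  | succ i ih =>
    obtain ⟨c, hc⟩ := ih
    rw [Function.iterate_succ_apply', hc]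
    unfold T
    have he := even_iff (a := c) hb
    by_cases h : Even ((c / b : ℚ)).num
    · rw [if_pos h]
      obtain ⟨d, hd⟩ := he.1 h
      refine ⟨d, ?_⟩
      rw [hd]; push_cast; field_simp; ring
    · rw [if_neg h]
      have hc' : Odd c := Int.not_even_iff_odd.1 fun hh => h (he.2 hh)
      have h2 : Even ((k : ℤ) * c + b) := by
        have h3 : Odd ((k : ℤ) * c) := Odd.mul (by exact_mod_cast hk) hc'
        exact h3.add_odd (by exact_mod_cast hb)
      obtain ⟨d, hd⟩ := h2
      refine ⟨d, ?_⟩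
      have h4 : (k : ℚ) * c + b = d + d := by exact_mod_cast hd
      rw [mul_div_assoc', div_add_one hb0, h4]
      field_simp; ring

/-- In an infinite orbit the absolute values tend to infinity. -/
theorem exists_large {k : ℕ} (hk : Odd k) {x : ℚ} (hx : x ∈ D) (hf : ¬ FinOrb k x) (R : ℚ) :
    ∃ N, ∀ i, N ≤ i → R < |(T k)^[i] x| := by
  have hb : Odd x.den := hx
  have hb0 : (0 : ℚ) < x.den := by exact_mod_cast x.den_pos
  choose c hc using iter_form hk hb (a := x.num) (Rat.num_div_den x).symm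
  have hinj : Function.Injective fun i => (T k)^[i] x := by
    intro i j hij
    by_contra hne
    rcases lt_or_gt_of_ne hne with h | h
    · exact hf ⟨i, j, h, hij⟩
    · exact hf ⟨j, i, h, hij.symm⟩
  have hcinj : Function.Injective c := by
    intro i j hij
    refine hinj ?_
    show (T k)^[i] x = (T k)^[j] x
    rw [hc i, hc j, hij]
  have hfin : (c ⁻¹' (Set.Icc (-⌊R * x.den⌋) ⌊R * x.den⌋)).Finite :=
    (Set.finite_Icc _ _).preimage hcinj.injOn
  obtain ⟨N, hN⟩ := hfin.bddAbove
  refine ⟨N + 1, fun i hi => ?_⟩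
  by_contra hle
  rw [not_lt, hc i, abs_div, abs_of_pos hb0, div_le_iff₀ hb0] at hle
  have h1 : |c i| ≤ ⌊R * x.den⌋ := Int.le_floor.2 (by push_cast; exact hle)
  have h2 := hN (show i ∈ c ⁻¹' _ from abs_le.1 h1)
  omega

end TwoAdicQ
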