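import Pool.Agent.Lib.MP_b77ea7_nt.Arith

/-! # Leaf: eventually periodic sequences are parity sequences -/

set_option autoImplicit false

namespace TwoAdicQ

private theorem not_half_mem : ((1 : ℚ) / 2) ∉ D := by
  intro h
  have h1 : Odd ((1 : ℚ) / 2).den := h
  have h2 : ((1 : ℚ) / 2).den = 2 := by norm_num
  rw [h2] at h1
  exact absurd h1 (by decide)

private theorem two_mul_mem {w : ℚ} (hw : w ∈ D) : 2 * w ∈ D := by
  have h := D_mul (D_nat 2) hw
  simpa using h

private theorem T_two_mul (k : ℕ) {w : ℚ} (hw : w ∈ D) :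
    Even (2 * w).num ∧ T k (2 * w) = w := by
  have h1 : Even (2 * w).num := by
    rw [even_iff_half (two_mul_mem hw)]
    have : 2 * w / 2 = w := by ring
    rw [this]; exact hw
  refine ⟨h1, ?_⟩
  unfold T
  rw [if_pos h1]
  ring

private theorem odd_pre_mem {k : ℕ} (hk : Odd k) {w : ℚ} (hw : w ∈ D) :
    (2 * w - 1) / k ∈ D := by
  rw [D_div_odd hk]
  have h1 := D_nat 1
  have h2 := D_sub (two_mul_mem hw) h1
  simpa using h2

private theorem T_odd_pre {k : ℕ} (hk : Odd k) {w : ℚ} (hw : w ∈ D) :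
    ¬ Even ((2 * w - 1) / (k : ℚ)).num ∧ T k ((2 * w - 1) / (k : ℚ)) = w := by
  have hk0 : (k : ℚ) ≠ 0 := by
    have : k ≠ 0 := by rintro rfl; exact absurd hk (by decide)
    exact_mod_cast this
  have h1 : ¬ Even ((2 * w - 1) / (k : ℚ)).num := by
    rw [even_iff_half (odd_pre_mem hk hw)]
    intro h
    have e : (2 * w - 1) / (k : ℚ) / 2 = (w - 1 / 2) / (k : ℚ) := by ring
    rw [e, D_div_odd hk] at h
    have h2 := D_sub hw h
    have e2 : w - (w - 1 / 2) = 1 / 2 := by ring
    rw [e2] at h2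
    exact not_half_mem h2
  refine ⟨h1, ?_⟩
  unfold T
  rw [if_neg h1]
  field_simp
  ring

private theorem par_succ (k : ℕ) (x : ℚ) (i : ℕ) : Par k x (i + 1) ↔ Par k (T k x) i := by
  unfold Par
  rw [Function.iterate_succ_apply]

/-- The inverse branch along a word is affine. -/
theorem branch {k : ℕ} (hk : Odd k) (p : ℕ) : ∀ s : ℕ → Prop, ∃ a ∈ D, ∃ b ∈ D,
    (1 ≤ p → a / 2 ∈ D) ∧ ∀ z ∈ D, (T k)^[p] (a * z + b) = z ∧
      ∀ i < p, (Par k (a * z + b) i ↔ s i) := by
  induction p with
  | zero =>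
    intro s
    refine ⟨1, by simpa using D_nat 1, 0, by simpa using D_nat 0, fun h => absurd h (by decide), ?_⟩
    intro z _
    refine ⟨by simp, fun i hi => absurd hi (Nat.not_lt_zero i)⟩
  | succ p ih =>
    intro s
    obtain ⟨a, ha, b, hb, -, h⟩ := ih (fun i => s (i + 1))
    by_cases hs : s 0
    · refine ⟨2 * a, two_mul_mem ha, 2 * b, two_mul_mem hb, fun _ => ?_, ?_⟩
      · have : 2 * a / 2 = a := by ring
        rw [this]; exact ha
      · intro z hz
        have hw : a * z + b ∈ D := D_add (D_mul ha hz) hb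
        have e : 2 * a * z + 2 * b = 2 * (a * z + b) := by ring
        rw [e]
        obtain ⟨h1, h2⟩ := T_two_mul k hw
        obtain ⟨h3, h4⟩ := h z hz
        refine ⟨by rw [Function.iterate_succ_apply, h2, h3], ?_⟩
        intro i hi
        cases i with
        | zero =>
          constructor
          · intro _; exact hs
          · intro _; exact h1
        | succ i =>
          rw [par_succ, h2]
          exact h4 i (by omega)
    · have hb' : (2 * b - 1) / (k : ℚ) ∈ D := odd_pre_mem hk hb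
      have ha' : 2 * a / (k : ℚ) ∈ D := (D_div_odd hk).2 (two_mul_mem ha)
      refine ⟨2 * a / (k : ℚ), ha', (2 * b - 1) / (k : ℚ), hb', fun _ => ?_, ?_⟩
      · have : 2 * a / (k : ℚ) / 2 = a / (k : ℚ) := by ring
        rw [this]; exact (D_div_odd hk).2 ha
      · intro z hz
        have hw : a * z + b ∈ D := D_add (D_mul ha hz) hb
        have e : 2 * a / (k : ℚ) * z + (2 * b - 1) / (k : ℚ) = (2 * (a * z + b) - 1) / (k : ℚ) := by
          ring
        rw [e]
        obtain ⟨h1, h2⟩ := T_odd_pre hk hw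
        obtain ⟨h3, h4⟩ := h z hz
        refine ⟨by rw [Function.iterate_succ_apply, h2, h3], ?_⟩
        intro i hi
        cases i with
        | zero =>
          constructor
          · intro h5; exact absurd h5 h1
          · intro h5; exact absurd h5 hs
        | succ i =>
          rw [par_succ, h2]
          exact h4 i (by omega)

private theorem div_odd_int {y : ℚ} (hy : y ∈ D) {q : ℤ} (hq : Odd q) : y / (q : ℚ) ∈ D := by
  have h1 : Odd q.natAbs := Int.natAbs_odd.2 hq
  have h2 : y / (q.natAbs : ℚ) ∈ D := (D_div_odd h1).2 hy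
  rcases Int.natAbs_eq q with h | h
  · have e : (q : ℚ) = (q.natAbs : ℚ) := by
      have := congrArg (fun t : ℤ => (t : ℚ)) h
      simpa using this
    rw [e]; exact h2
  · have e : (q : ℚ) = -(q.natAbs : ℚ) := by
      have := congrArg (fun t : ℤ => (t : ℚ)) h
      simpa using this
    rw [e, div_neg]
    have h3 := D_sub (D_nat 0) h2
    simpa using h3

/-- Purely periodic sequences. -/
theorem realize_per {k : ℕ} (hk : Odd k) {p : ℕ} (hp : 1 ≤ p) {s : ℕ → Prop}
    (hs : ∀ i, s (i + p) ↔ s i) : ∃ x ∈ D, ∀ i, Par k x i ↔ s i := by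
  obtain ⟨a, ha, b, hb, hc, h⟩ := branch hk p s
  have hc' := hc hp
  obtain ⟨u, v, hv, huv⟩ := mem_D_iff.1 hc'
  have hv0 : (v : ℚ) ≠ 0 := by
    have : v ≠ 0 := by rintro rfl; exact absurd hv (by decide)
    exact_mod_cast this
  have hq : Odd ((v : ℤ) - 2 * u) := by
    have h1 : Odd (v : ℤ) := by exact_mod_cast hv
    exact h1.sub_even (even_two_mul u)
  have hq0 : (((v : ℤ) - 2 * u : ℤ) : ℚ) ≠ 0 := by
    have : ((v : ℤ) - 2 * u) ≠ 0 := by
      intro h0; rw [h0] at hq; exact absurd hq (by decide)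
    exact_mod_cast this
  have ea : a = 2 * ((u : ℚ) / v) := by
    rw [← huv]; ring
  have e1 : 1 - a = (((v : ℤ) - 2 * u : ℤ) : ℚ) / v := by
    rw [ea]; push_cast; field_simp
  have h1a : 1 - a ≠ 0 := by
    rw [e1]; exact div_ne_zero hq0 hv0
  have hz : b / (1 - a) ∈ D := by
    have e2 : b / (1 - a) = b * (v : ℚ) / (((v : ℤ) - 2 * u : ℤ) : ℚ) := by
      rw [e1]; field_simp
    rw [e2]
    exact div_odd_int (D_mul hb (D_nat v)) hq
  have hfix : a * (b / (1 - a)) + b = b / (1 - a) := by
    field_simp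
    ring
  obtain ⟨h3, h4⟩ := h _ hz
  rw [hfix] at h3 h4
  refine ⟨b / (1 - a), hz, ?_⟩
  intro i
  induction i using Nat.strong_induction_on with
  | _ i ih =>
    by_cases hi : i < p
    · exact h4 i hi
    · obtain ⟨j, rfl⟩ : ∃ j, i = j + p := ⟨i - p, by omega⟩
      rw [hs j, ← ih j (by omega)]
      unfold Par
      rw [Function.iterate_add_apply, h3]

/-- Eventually periodic sequences. -/
theorem realize {k : ℕ} (hk : Odd k) {p q : ℕ} (hp : 1 ≤ p) {s : ℕ → Prop}
    (hs : ∀ i, q ≤ i → (s (i + p) ↔ s i)) : ∃ x ∈ D, ∀ i, Par k x i ↔ s i := by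
  induction q generalizing s with
  | zero => exact realize_per hk hp (fun i => hs i (Nat.zero_le i))
  | succ q ih =>
    obtain ⟨y, hy, hy2⟩ := ih (s := fun i => s (i + 1)) (by
      intro i hi
      have h1 := hs (i + 1) (by omega)
      have e : i + 1 + p = i + p + 1 := by omega
      rw [e] at h1
      exact h1)
    obtain ⟨x, hx, hx2, hx3⟩ := exists_pre hk hy (s 0)
    refine ⟨x, hx, ?_⟩
    intro i
    cases i with
    | zero => exact hx3
    | succ i =>
      rw [par_succ, hx2]
      exact hy2 i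

end TwoAdicQ
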