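import Pool.Agent.Lib.MP_b77ea7_nt.Core
import Pool.Agent.Lib.MP_b77ea7_nt.Growth
import Pool.Agent.Lib.MP_b77ea7_nt.Realize

/-! # MP_b77ea7_nt: assembly -/

set_option autoImplicit false

namespace TwoAdicQ

/-- A point with a finite orbit has the parity sequence of a point for every other odd `l`. -/
theorem exists_par_of_finOrb {k l : ℕ} (hl : Odd l) {x : ℚ} (hf : FinOrb k x) :
    ∃ y ∈ D, Par l y = Par k x := by
  obtain ⟨i, j, hij, he⟩ := hf
  obtain ⟨y, hy, h⟩ := realize (k := l) hl (p := j - i) (q := i) (by omega) (s := Par k x)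
    (fun m hm => by
      unfold Par
      have e1 : m + (j - i) = (m - i) + j := by omega
      have e2 : m = (m - i) + i := by omega
      rw [e1, Function.iterate_add_apply, ← he, ← Function.iterate_add_apply, ← e2])
  exact ⟨y, hy, funext fun i => propext (h i)⟩

theorem par_succ (k : ℕ) (x : ℚ) (i : ℕ) : Par k (T k x) i = Par k x (i + 1) := by
  unfold Par
  rw [Function.iterate_succ_apply]

theorem par_conj {h : ℚ → ℚ} (hc : Conj h) {x : ℚ} (hx : x ∈ D) (i : ℕ) :
    h ((T 3)^[i] x) = (T 5)^[i] (h x) := by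
  induction i with
  | zero => rfl
  | succ i ih =>
    rw [Function.iterate_succ_apply', Function.iterate_succ_apply', ← ih,
      hc.2 _ (iter_mem (by decide) hx i)]

/-- The two parity sets are equal. -/
def SamePar : Prop := {s | ∃ x ∈ D, Par 3 x = s} = {s | ∃ x ∈ D, Par 5 x = s}

theorem samePar_of_fin (h3 : ∀ x ∈ D, FinOrb 3 x) (h5 : ∀ x ∈ D, FinOrb 5 x) : SamePar := by
  ext s
  constructor
  · rintro ⟨x, hx, rfl⟩
    exact exists_par_of_finOrb (by decide) (h3 x hx)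
  · rintro ⟨x, hx, rfl⟩
    exact exists_par_of_finOrb (by decide) (h5 x hx)

theorem samePar_of_uniform {h : ℚ → ℚ} (hc : Conj h) (hu : Uniform h) : SamePar := by
  rcases core hc hu with h1 | h1
  · have h2 : ∀ x ∈ D, Par 5 (h x) = Par 3 x := fun x hx => funext fun i => propext (by
      unfold Par
      rw [← par_conj hc hx i]
      exact (h1 _ (iter_mem (by decide) hx i)).symm)
    ext s
    constructor
    · rintro ⟨x, hx, rfl⟩
      exact ⟨h x, hc.1.mapsTo hx, h2 x hx⟩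
    · rintro ⟨y, hy, rfl⟩
      obtain ⟨x, hx, rfl⟩ := hc.1.surjOn hy
      exact ⟨x, hx, (h2 x hx).symm⟩
  · have h2 : ∀ x ∈ D, ∀ i, (Par 3 x i ↔ ¬ Par 5 (h x) i) := fun x hx i => by
      unfold Par
      rw [← par_conj hc hx i]
      exact h1 _ (iter_mem (by decide) hx i)
    have h3 : ∀ x ∈ D, FinOrb 3 x ∧ FinOrb 5 (h x) := fun x hx => by
      have h4 : FinOrb 3 x ↔ FinOrb 5 (h x) := by
        constructor
        · rintro ⟨i, j, hij, he⟩
          exact ⟨i, j, hij, by rw [← par_conj hc hx i, ← par_conj hc hx j, he]⟩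
        · rintro ⟨i, j, hij, he⟩
          rw [← par_conj hc hx i, ← par_conj hc hx j] at he
          exact ⟨i, j, hij, hc.1.injOn (iter_mem (by decide) hx i)
            (iter_mem (by decide) hx j) he⟩
      rcases finOrb_of_opp hx (hc.1.mapsTo hx) (h2 x hx) with h5 | h5
      · exact ⟨h5, h4.1 h5⟩
      · exact ⟨h4.2 h5, h5⟩
    refine samePar_of_fin (fun x hx => (h3 x hx).1) fun y hy => ?_
    obtain ⟨x, hx, rfl⟩ := hc.1.surjOn hy
    exact (h3 x hx).2

theorem exists_isometric (hs : SamePar) : ∃ h, Conj h ∧ Isometric h := by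
  classical
  have h1 : ∀ x ∈ D, ∃ y ∈ D, Par 5 y = Par 3 x := fun x hx => by
    have h2 : Par 3 x ∈ {s | ∃ x ∈ D, Par 5 x = s} := by
      rw [← hs]
      exact ⟨x, hx, rfl⟩
    exact h2
  choose! h hD hP using h1
  have hodd3 : Odd 3 := by decide
  have hodd5 : Odd 5 := by decide
  refine ⟨h, ⟨⟨fun x hx => hD x hx, fun x hx y hy he => ?_, fun y hy => ?_⟩, fun x hx => ?_⟩,
    fun n x hx y hy => ?_⟩
  · refine eq_of_par hodd3 hx hy fun i => ?_
    rw [← hP x hx, ← hP y hy, he]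
  · have h2 : Par 5 y ∈ {s | ∃ x ∈ D, Par 3 x = s} := by
      rw [hs]
      exact ⟨y, hy, rfl⟩
    obtain ⟨x, hx, hxy⟩ := h2
    refine ⟨x, hx, eq_of_par hodd5 (hD x hx) hy fun i => ?_⟩
    rw [hP x hx, hxy]
  · refine eq_of_par hodd5 (hD _ (T_mem hodd3 hx)) (T_mem hodd5 (hD x hx)) fun i => ?_
    rw [hP _ (T_mem hodd3 hx), par_succ, par_succ, hP x hx]
  · rw [near_iff hodd3 hx hy, near_iff hodd5 (hD x hx) (hD y hy), hP x hx, hP y hy]

theorem main : [∃ h, Conj h ∧ Uniform h, ∃ h, Conj h ∧ Isometric h, SamePar].TFAE ∧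
    ((∀ x ∈ D, FinOrb 3 x) → (∀ x ∈ D, FinOrb 5 x) → ∃ h, Conj h ∧ Isometric h) := by
  refine ⟨?_, fun h3 h5 => exists_isometric (samePar_of_fin h3 h5)⟩
  tfae_have 1 → 3 := by
    rintro ⟨h, hc, hu⟩
    exact samePar_of_uniform hc hu
  tfae_have 3 → 2 := exists_isometric
  tfae_have 2 → 1 := by
    rintro ⟨h, hc, hi⟩
    exact ⟨h, hc, fun n => ⟨n, fun x hx y hy => (hi n x hx y hy).1⟩,
      fun n => ⟨n, fun x hx y hy => (hi n x hx y hy).2⟩⟩
  tfae_finish

end TwoAdicQ
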