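import Pool.Agent.Lib.MP_b77ea7_nt.Main
import Pool.Agent.Lib.MP_b77ea7_nt.Freq62

/-! # MP_b77ea7_nt: finite orbits and frequencies, assembly -/

set_option autoImplicit false

namespace TwoAdicQ

open Filter

open Classical in
theorem freq3 {x : ℚ} (hx : x ∈ D) (hf : ¬ FinOrb 3 x) {θ : ℝ}
    (h : θ < Real.log 2 / Real.log 3) : ∀ᶠ n : ℕ in atTop,
      θ * n ≤ (((Finset.range n).filter fun i => ¬ Par 3 x i).card : ℝ) :=
  freq62 (by decide) le_rfl hx hf (by rw [Nat.cast_ofNat]; exact h)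

theorem finOrb_iff {h : ℚ → ℚ} (hc : Conj h) {x : ℚ} (hx : x ∈ D) :
    FinOrb 3 x ↔ FinOrb 5 (h x) := by
  constructor
  · rintro ⟨i, j, hij, he⟩
    exact ⟨i, j, hij, by rw [← par_conj hc hx i, ← par_conj hc hx j, he]⟩
  · rintro ⟨i, j, hij, he⟩
    rw [← par_conj hc hx i, ← par_conj hc hx j] at he
    exact ⟨i, j, hij, hc.1.injOn (iter_mem (by decide) hx i) (iter_mem (by decide) hx j) he⟩

theorem allFin_iff {h : ℚ → ℚ} (hc : Conj h) :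
    (∀ x ∈ D, FinOrb 3 x) ↔ ∀ x ∈ D, FinOrb 5 x := by
  constructor
  · intro h3 y hy
    obtain ⟨x, hx, rfl⟩ := hc.1.surjOn hy
    exact (finOrb_iff hc hx).1 (h3 x hx)
  · intro h5 x hx
    exact (finOrb_iff hc hx).2 (h5 _ (hc.1.mapsTo hx))

theorem par_add (k : ℕ) (x : ℚ) (i m : ℕ) : Par k ((T k)^[i] x) m = Par k x (m + i) := by
  unfold Par
  rw [Function.iterate_add_apply]

theorem finOrb_of_par {k l : ℕ} (hl : Odd l) {x y : ℚ} (hy : y ∈ D) (h : Par k x = Par l y)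
    (hf : FinOrb k x) : FinOrb l y := by
  obtain ⟨i, j, hij, he⟩ := hf
  refine ⟨i, j, hij, eq_of_par hl (iter_mem hl hy i) (iter_mem hl hy j) fun m => ?_⟩
  rw [par_add, par_add, ← h, ← par_add, ← par_add, he]

open Classical in
theorem freq5 (hs : SamePar) {y : ℚ} (hy : y ∈ D) (hf : ¬ FinOrb 5 y) {θ : ℝ}
    (h : θ < Real.log 2 / Real.log 3) : ∀ᶠ n : ℕ in atTop,
      θ * n ≤ (((Finset.range n).filter fun i => ¬ Par 5 y i).card : ℝ) := by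
  have h2 : Par 5 y ∈ {s | ∃ x ∈ D, Par 3 x = s} := by
    rw [hs]
    exact ⟨y, hy, rfl⟩
  obtain ⟨x, hx, hxy⟩ := h2
  rw [← hxy]
  exact freq3 hx (fun h3 => hf (finOrb_of_par (by decide) hy hxy h3)) h

open Classical in
theorem main2 : [∃ h, Conj h ∧ Uniform h, ∃ h, Conj h ∧ Isometric h,
      {s | ∃ x ∈ D, Par 3 x = s} = {s | ∃ x ∈ D, Par 5 x = s}].TFAE ∧
    ((∀ x ∈ D, FinOrb 3 x) → (∀ x ∈ D, FinOrb 5 x) → ∃ h, Conj h ∧ Isometric h) ∧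
    ((∃ h, Conj h) → ((∀ x ∈ D, FinOrb 3 x) ↔ ∀ x ∈ D, FinOrb 5 x)) ∧
    ((∃ h, Conj h ∧ Uniform h) → ∀ y ∈ D, ¬ FinOrb 5 y → ∀ θ : ℝ,
      θ < Real.log 2 / Real.log 3 → ∀ᶠ n : ℕ in atTop,
        θ * n ≤ (((Finset.range n).filter fun i => ¬ Par 5 y i).card : ℝ)) :=
  ⟨main.1, main.2, fun ⟨_, hc⟩ => allFin_iff hc, fun ⟨_, hc, hu⟩ _ hy hf _ hθ =>
    freq5 (samePar_of_uniform hc hu) hy hf hθ⟩

end TwoAdicQ
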